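import Pool.Agent.ZPT.Stmts

/-!
Squad ZPT, rows IS, IB, IC: isogenies of complex numbers.
-/

set_option autoImplicit false

namespace Pool.Agent.ZPT.H25

open Pool.Agent.ZPT UpperHalfPlane
open scoped MatrixGroups

/-- the denominator does not vanish -/
theorem den_ne {τ : ℂ} (hτ : 0 < τ.im) {a b c d : ℤ} (h : 0 < a * d - b * c) :
    (c : ℂ) * τ + (d : ℂ) ≠ 0 := by
  intro h0
  have h1 : ((c : ℂ) * τ + (d : ℂ)).im = 0 := by rw [h0]; simp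
  have h2 : ((c : ℂ) * τ + (d : ℂ)).re = 0 := by rw [h0]; simp
  simp at h1 h2
  rcases h1 with h1 | h1
  · subst h1
    simp at h2
    subst h2
    simp at h
  · exact hτ.ne' h1

theorem im_mob {τ : ℂ} {a b c d : ℤ} :
    (((a : ℂ) * τ + (b : ℂ)) / ((c : ℂ) * τ + (d : ℂ))).im =
      ((a * d - b * c : ℤ) : ℝ) * τ.im / Complex.normSq ((c : ℂ) * τ + (d : ℂ)) := by
  rw [Complex.div_im]
  simp only [Complex.add_im, Complex.mul_im, Complex.intCast_re, Complex.intCast_im, zero_mul,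
    add_zero, Complex.add_re, Complex.mul_re, sub_zero]
  push_cast
  ring

theorem im_mob_pos {τ : ℂ} (hτ : 0 < τ.im) {a b c d : ℤ} (h : 0 < a * d - b * c) :
    0 < (((a : ℂ) * τ + (b : ℂ)) / ((c : ℂ) * τ + (d : ℂ))).im := by
  rw [im_mob]
  have h1 : 0 < Complex.normSq ((c : ℂ) * τ + (d : ℂ)) := Complex.normSq_pos.mpr (den_ne hτ h)
  have h2 : (0 : ℝ) < ((a * d - b * c : ℤ) : ℝ) := by exact_mod_cast h
  positivity

/-- **Row IS** -/
theorem is_ : ISStmt := by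
  rintro x y ⟨τ, hτ, a, b, c, d, hdet, hx, hy⟩
  have hd := den_ne hτ hdet
  refine ⟨((a : ℂ) * τ + (b : ℂ)) / ((c : ℂ) * τ + (d : ℂ)), im_mob_pos hτ hdet, d, -b, -c, a, ?_,
    hy, ?_⟩
  · have : d * a - -b * -c = a * d - b * c := by ring
    rw [this]; exact hdet
  · rw [← hx]
    congr 1
    have hdet' : ((a : ℂ) * d - b * c) ≠ 0 := by
      have : ((a * d - b * c : ℤ) : ℂ) ≠ 0 := by exact_mod_cast hdet.ne'
      push_cast at this
      exact this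
    have e1 : (d : ℂ) * (((a : ℂ) * τ + (b : ℂ)) / ((c : ℂ) * τ + (d : ℂ))) + ((-b : ℤ) : ℂ) =
        ((a : ℂ) * d - b * c) * τ / ((c : ℂ) * τ + (d : ℂ)) := by
      rw [mul_div_assoc', div_add' _ _ _ hd, div_left_inj' hd]
      push_cast
      ring
    have e2 : ((-c : ℤ) : ℂ) * (((a : ℂ) * τ + (b : ℂ)) / ((c : ℂ) * τ + (d : ℂ))) + (a : ℂ) =
        ((a : ℂ) * d - b * c) / ((c : ℂ) * τ + (d : ℂ)) := by
      rw [mul_div_assoc', div_add' _ _ _ hd, div_left_inj' hd]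
      push_cast
      ring
    rw [e1, e2, div_div_div_cancel_right₀ hd, mul_div_cancel_left₀ _ hdet']

/-- members of `idx` -/
theorem idx_mem {m : ℕ} (hm : 1 ≤ m) {x : ℕ × ℕ} (hx : x ∈ idx m) :
    1 ≤ x.1 ∧ 1 ≤ m / x.1 ∧ x.1 * (m / x.1) = m := by
  simp only [idx, Finset.mem_filter, Finset.mem_product, Nat.mem_divisors, Finset.mem_range] at hx
  obtain ⟨⟨⟨h1, h2⟩, h3⟩, h4⟩ := hx
  have h5 : x.1 * (m / x.1) = m := Nat.mul_div_cancel' h1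
  refine ⟨Nat.pos_of_dvd_of_pos h1 hm, ?_, h5⟩
  rcases Nat.eq_zero_or_pos (m / x.1) with h6 | h6
  · rw [h6] at h5; omega
  · exact h6

/-- **Row IB** -/
theorem ib (hJS : JSStmt) : IBStmt := by
  intro Psi hPsi m hm x y h0
  obtain ⟨τ, hτ, rfl⟩ := hJS x
  rw [hPsi m hm τ hτ y, Finset.prod_eq_zero_iff] at h0
  obtain ⟨w, hw, hw0⟩ := h0
  obtain ⟨h1, h2, h3⟩ := idx_mem hm hw
  refine ⟨τ, hτ, (w.1 : ℤ), (w.2 : ℤ), 0, ((m / w.1 : ℕ) : ℤ), ?_, rfl, ?_⟩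
  · have : (0 : ℤ) < (w.1 : ℤ) * ((m / w.1 : ℕ) : ℤ) := by positivity
    simpa using this
  · rw [sub_eq_zero] at hw0
    rw [hw0]
    congr 1
    unfold hpt
    simp only [Int.cast_natCast, Int.cast_zero, zero_mul, zero_add]

/-- **Row IC** -/
theorem ic (hJI : JIStmt) (hHF : HFStmt) : ICStmt := by
  rintro Psi hPsi x y ⟨τ, hτ, a, b, c, d, hdet, hx, hy⟩
  obtain ⟨m, hm⟩ : ∃ m : ℕ, (m : ℤ) = a * d - b * c := ⟨(a * d - b * c).toNat,
    Int.toNat_of_nonneg hdet.le⟩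
  have hm1 : 1 ≤ m := by omega
  refine ⟨m, hm1, ?_⟩
  obtain ⟨p, q, r, s, hps, w, hw, ha, hb, hc, hd⟩ := hHF m hm1 a b c d hm.symm
  obtain ⟨h1, h2, h3⟩ := idx_mem hm1 hw
  rw [← hx, hPsi m hm1 τ hτ y, Finset.prod_eq_zero_iff]
  refine ⟨w, hw, ?_⟩
  rw [sub_eq_zero, ← hy]
  have hδ : ((m / w.1 : ℕ) : ℂ) ≠ 0 := by
    have : (m / w.1 : ℕ) ≠ 0 := by omega
    exact_mod_cast this
  -- the point of the upper half plane
  have hwim : 0 < (hpt m w τ).im := by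
    have h4 := im_mob_pos (a := (w.1 : ℤ)) (b := (w.2 : ℤ)) (c := 0) (d := ((m / w.1 : ℕ) : ℤ)) hτ
      (by
        have : (0 : ℤ) < (w.1 : ℤ) * ((m / w.1 : ℕ) : ℤ) := by positivity
        simpa using this)
    have h5 : ((((w.1 : ℤ) : ℂ) * τ + ((w.2 : ℤ) : ℂ)) /
        (((0 : ℤ) : ℂ) * τ + (((m / w.1 : ℕ) : ℤ) : ℂ))) = hpt m w τ := by
      unfold hpt
      simp only [Int.cast_natCast, Int.cast_zero, zero_mul, zero_add]
    rwa [h5] at h4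
  let g : SL(2, ℤ) := ⟨!![p, q; r, s], by rw [Matrix.det_fin_two_of]; exact hps⟩
  have h6 := hJI g ⟨hpt m w τ, hwim⟩
  have h7 : (((g • (⟨hpt m w τ, hwim⟩ : UpperHalfPlane) : UpperHalfPlane)) : ℂ) =
      ((p : ℂ) * hpt m w τ + (q : ℂ)) / ((r : ℂ) * hpt m w τ + (s : ℂ)) := by
    rw [UpperHalfPlane.specialLinearGroup_apply]
    simp [g]
  rw [h7] at h6
  have h8 : ((p : ℂ) * hpt m w τ + (q : ℂ)) / ((r : ℂ) * hpt m w τ + (s : ℂ)) =
      ((a : ℂ) * τ + (b : ℂ)) / ((c : ℂ) * τ + (d : ℂ)) := by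
    have e1 : (p : ℂ) * hpt m w τ + (q : ℂ) = ((a : ℂ) * τ + (b : ℂ)) / ((m / w.1 : ℕ) : ℂ) := by
      rw [ha, hb]
      unfold hpt
      simp only [Int.cast_add, Int.cast_mul, Int.cast_natCast]
      rw [mul_div_assoc', div_add' _ _ _ hδ, div_left_inj' hδ]
      ring
    have e2 : (r : ℂ) * hpt m w τ + (s : ℂ) = ((c : ℂ) * τ + (d : ℂ)) / ((m / w.1 : ℕ) : ℂ) := by
      rw [hc, hd]
      unfold hpt
      simp only [Int.cast_add, Int.cast_mul, Int.cast_natCast]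
      rw [mul_div_assoc', div_add' _ _ _ hδ, div_left_inj' hδ]
      ring
    rw [e1, e2, div_div_div_cancel_right₀ hδ]
  rw [h8] at h6
  exact h6

end Pool.Agent.ZPT.H25
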