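import Pool.Agent.ZPT.Stmts

/-!
Squad ZPT, row JI: `J` is invariant under `SL(2, ℤ)`.
-/

set_option autoImplicit false

namespace Pool.Agent.ZPT.H25

open Pool.Agent.ZPT UpperHalfPlane
open scoped MatrixGroups

/-- **Row JI** -/
theorem ji (hJE : JEStmt) : JIStmt := by
  intro g z
  rw [hJE, hJE]
  have hg : (g : GL (Fin 2) ℝ) ∈ 𝒮ℒ := ⟨g, rfl⟩
  have h0 : (denom (g : GL (Fin 2) ℝ) z : ℂ) ≠ 0 := denom_ne_zero _ _
  have h1 : ModularForm.E₄ ((g : GL (Fin 2) ℝ) • z) =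
      (denom (g : GL (Fin 2) ℝ) z) ^ (4 : ℤ) * ModularForm.E₄ z :=
    SlashInvariantForm.slash_action_eqn'' ModularForm.E₄ hg z
  have h2 : CuspForm.discriminant ((g : GL (Fin 2) ℝ) • z) =
      (denom (g : GL (Fin 2) ℝ) z) ^ (12 : ℤ) * CuspForm.discriminant z :=
    SlashInvariantForm.slash_action_eqn'' CuspForm.discriminant hg z
  have h3 : ModularForm.discriminant ((g : GL (Fin 2) ℝ) • z) =
      (denom (g : GL (Fin 2) ℝ) z) ^ (12 : ℤ) * ModularForm.discriminant z := h2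
  have h4 : (g • z : UpperHalfPlane) = (g : GL (Fin 2) ℝ) • z := rfl
  rw [h4, h1, h3, mul_pow]
  have h5 : ((denom (g : GL (Fin 2) ℝ) z) ^ (4 : ℤ)) ^ 3 =
      (denom (g : GL (Fin 2) ℝ) z) ^ (12 : ℤ) := by
    rw [← zpow_natCast, ← zpow_mul]; norm_num
  rw [h5, mul_div_mul_left _ _ (zpow_ne_zero _ h0)]

end Pool.Agent.ZPT.H25
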