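import Pool.Agent.ZPT.Stmts

/-!
Squad ZPT, rows LA, CA, GI: polynomials with algebraic coefficients in ideals.
-/

set_option autoImplicit false

namespace Pool.Agent.ZPT.H25

open Pool.Agent.ZPT MvPolynomial

/-- an additive map that is linear over the algebraic numbers -/
theorem exists_mu (c₀ : ℂ) (h : c₀ ≠ 0) : ∃ μ : ℂ →+ ℂ, μ c₀ = 1 ∧ (∀ x, IsAlgebraic ℚ (μ x)) ∧
    ∀ x a, IsAlgebraic ℚ a → μ (x * a) = μ x * a := by
  let f : Qb →ₗ[Qb] ℂ := LinearMap.toSpanSingleton Qb ℂ c₀
  have hf : LinearMap.ker f = ⊥ := by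
    rw [LinearMap.ker_eq_bot']
    intro m hm
    have h1 : m • c₀ = 0 := hm
    rcases smul_eq_zero.mp h1 with h2 | h2
    · exact h2
    · exact absurd h2 h
  obtain ⟨g, hg⟩ := LinearMap.exists_leftInverse_of_injective f hf
  have hg1 : g c₀ = 1 := by
    have h1 := congrArg (fun t : Qb →ₗ[Qb] Qb => t 1) hg
    simpa [f] using h1
  refine ⟨(algebraMap Qb ℂ).toAddMonoidHom.comp g.toAddMonoidHom, ?_, ?_, ?_⟩
  · show (algebraMap Qb ℂ) (g c₀) = 1
    rw [hg1, map_one]
  · intro x
    exact mem_algebraicClosure_iff.mp (g x).2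
  · intro x a ha
    have h1 : x * a = (⟨a, mem_algebraicClosure_iff.mpr ha⟩ : Qb) • x := by
      rw [mul_comm]; rfl
    show (algebraMap Qb ℂ) (g (x * a)) = (algebraMap Qb ℂ) (g x) * a
    rw [h1, map_smul, smul_eq_mul, map_mul, mul_comm]
    rfl

variable {n : ℕ}

/-- the coefficientwise map -/
noncomputable def Lam (μ : ℂ →+ ℂ) (h : MvPolynomial (Fin n) ℂ) : MvPolynomial (Fin n) ℂ :=
  ∑ m ∈ h.support, monomial m (μ (coeff m h))

theorem coeff_Lam (μ : ℂ →+ ℂ) (h : MvPolynomial (Fin n) ℂ) (k : Fin n →₀ ℕ) :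
    coeff k (Lam μ h) = μ (coeff k h) := by
  classical
  unfold Lam
  rw [coeff_sum]
  simp only [coeff_monomial]
  rw [Finset.sum_ite_eq']
  split_ifs with h1
  · rfl
  · rw [notMem_support_iff.mp h1, map_zero]

theorem Lam_zero (μ : ℂ →+ ℂ) : Lam μ (0 : MvPolynomial (Fin n) ℂ) = 0 := by
  ext k
  rw [coeff_Lam, coeff_zero, map_zero]

theorem Lam_add (μ : ℂ →+ ℂ) (g h : MvPolynomial (Fin n) ℂ) :
    Lam μ (g + h) = Lam μ g + Lam μ h := by
  ext k
  rw [coeff_Lam, coeff_add, coeff_add, coeff_Lam, coeff_Lam, map_add]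

theorem Lam_mul (μ : ℂ →+ ℂ) (hμ : ∀ x a, IsAlgebraic ℚ a → μ (x * a) = μ x * a)
    (h f : MvPolynomial (Fin n) ℂ) (hf : ∀ m, IsAlgebraic ℚ (coeff m f)) :
    Lam μ (h * f) = Lam μ h * f := by
  classical
  ext k
  rw [coeff_Lam, coeff_mul, coeff_mul, map_sum]
  refine Finset.sum_congr rfl fun x _ => ?_
  rw [hμ _ _ (hf _), coeff_Lam]

/-- **Row LA** -/
theorem la : LAStmt := by
  rintro n Q ⟨T, rfl, hT⟩ g hg m₀ hm
  obtain ⟨μ, h1, h2, h3⟩ := exists_mu _ hm
  have key : ∀ h : MvPolynomial (Fin n) ℂ, Lam μ (h * g) ∈ Ideal.span T := by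
    refine Submodule.span_induction (p := fun g _ => ∀ h : MvPolynomial (Fin n) ℂ,
      Lam μ (h * g) ∈ Ideal.span T) ?_ ?_ ?_ ?_ hg
    · intro f hf h
      rw [Lam_mul μ h3 h f (hT f hf)]
      exact Ideal.mul_mem_left _ _ (Ideal.subset_span hf)
    · intro h
      rw [mul_zero, Lam_zero]
      exact zero_mem _
    · intro x y _ _ hx hy h
      rw [mul_add, Lam_add]
      exact add_mem (hx h) (hy h)
    · intro a x _ hx h
      rw [smul_eq_mul, ← mul_assoc]
      exact hx (h * a)
  refine ⟨Lam μ g, ?_, ?_, ?_, ?_⟩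
  · have := key 1
    rwa [one_mul] at this
  · intro m
    rw [coeff_Lam]
    exact h2 _
  · rw [coeff_Lam, h1]
  · intro m hm'
    rw [mem_support_iff, coeff_Lam] at hm'
    rw [mem_support_iff]
    intro h0
    rw [h0, map_zero] at hm'
    exact hm' rfl

/-- **Row GI** -/
theorem gi (hLA : LAStmt) : GIStmt := by
  intro n P hP hND i j hij
  obtain ⟨G0, hG0, hv, hc⟩ := hND i j hij
  obtain ⟨G, hG, h1, h2, h3⟩ := hLA n P hP G0 hG0 _ hc
  refine ⟨G, hG, h1, degreeOf i G0, degreeOf j G0, ?_, h2⟩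
  intro m hm
  have hm0 := h3 hm
  refine ⟨monomial_le_degreeOf i hm0, monomial_le_degreeOf j hm0, ?_⟩
  intro l hli hlj
  refine mem_support_notMem_vars_zero hm0 ?_
  intro hl
  have := hv hl
  simp at this
  rcases this with h | h
  · exact hli h
  · exact hlj h

/-- roots of polynomials with algebraic coefficients -/
theorem alg_of_root (G : Polynomial ℂ) (hG : ∀ k, IsAlgebraic ℚ (G.coeff k)) (h0 : G ≠ 0) (x : ℂ)
    (hx : G.eval x = 0) : IsAlgebraic ℚ x := by
  have h1 : G ∈ Polynomial.lifts (algebraMap Qb ℂ) := by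
    rw [Polynomial.lifts_iff_coeff_lifts]
    intro k
    exact ⟨⟨G.coeff k, mem_algebraicClosure_iff.mpr (hG k)⟩, rfl⟩
  obtain ⟨H, hH⟩ := h1
  have h2 : IsAlgebraic Qb x := by
    refine ⟨H, ?_, ?_⟩
    · rintro rfl
      apply h0
      rw [← hH]
      simp
    · rw [Polynomial.aeval_def, ← Polynomial.eval_map]
      have : H.map (algebraMap Qb ℂ) = G := hH
      rw [this]
      exact hx
  have h3 : Algebra.IsAlgebraic ℚ Qb := by
    refine ⟨fun y => ?_⟩
    obtain ⟨p, hp0, hp⟩ := mem_algebraicClosure_iff.mp y.2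
    refine ⟨p, hp0, ?_⟩
    apply (algebraMap Qb ℂ).injective
    rw [← Polynomial.aeval_algebraMap_apply, map_zero]
    exact hp
  exact h2.restrictScalars ℚ

/-- **Row CA** -/
theorem ca (hLA : LAStmt) : CAStmt := by
  classical
  rintro n P ⟨T, rfl, hT⟩ F hF hfin x hxV hxF i
  set Q : Ideal (MvPolynomial (Fin n) ℂ) := Ideal.span (T ∪ {F}) with hQ
  have hQd : DefQbar Q := by
    refine ⟨T ∪ {F}, rfl, ?_⟩
    rintro f (hf | hf)
    · exact hT f hf
    · rw [Set.mem_singleton_iff] at hf
      rw [hf]; exact hF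
  have hzero : ∀ y : Fin n → ℂ, (∀ f ∈ Q, eval y f = 0) ↔
      (y ∈ V (Ideal.span T) ∧ eval y F = 0) := by
    intro y
    constructor
    · intro h
      exact ⟨fun f hf => h f (Ideal.span_mono Set.subset_union_left hf),
        h F (Ideal.subset_span (Or.inr rfl))⟩
    · rintro ⟨h1, h2⟩
      have h3 : Q ≤ RingHom.ker (eval y) := by
        rw [hQ, Ideal.span_le]
        rintro f (hf | hf)
        · exact h1 f (Ideal.subset_span hf)
        · rw [Set.mem_singleton_iff] at hf
          rw [hf]; exact h2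
      exact fun f hf => h3 hf
  -- the univariate polynomial
  set Z := hfin.toFinset with hZ
  let H : Polynomial ℂ := ∏ y ∈ Z, (Polynomial.X - Polynomial.C (y i))
  have hHm : H.Monic := Polynomial.monic_prod_of_monic _ _ fun y _ => Polynomial.monic_X_sub_C _
  let h : MvPolynomial (Fin n) ℂ := Polynomial.aeval (X i) H
  have heval : ∀ (p : Polynomial ℂ) (y : Fin n → ℂ),
      eval y (Polynomial.aeval (X i : MvPolynomial (Fin n) ℂ) p) = p.eval (y i) := by
    intro p y
    have h1 := Polynomial.aeval_algHom_apply (MvPolynomial.aeval y : MvPolynomial (Fin n) ℂ →ₐ[ℂ] ℂ)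
      (X i) p
    rw [MvPolynomial.aeval_X] at h1
    have h2 : (MvPolynomial.aeval y : MvPolynomial (Fin n) ℂ →ₐ[ℂ] ℂ)
      (Polynomial.aeval (X i : MvPolynomial (Fin n) ℂ) p) =
      eval y (Polynomial.aeval (X i : MvPolynomial (Fin n) ℂ) p) := rfl
    rw [← h2, ← h1, Polynomial.aeval_def, Polynomial.eval₂_eq_eval_map]
    simp
  have hrad : h ∈ Q.radical := by
    rw [← vanishingIdeal_zeroLocus_eq_radical (K := ℂ), mem_vanishingIdeal_iff]
    intro y hy
    rw [mem_zeroLocus_iff] at hy
    have h1 := (hzero y).mp hy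
    have h2 : y ∈ Z := by rw [hZ, Set.Finite.mem_toFinset]; exact h1
    show eval y h = 0
    rw [heval, Polynomial.eval_prod]
    exact Finset.prod_eq_zero h2 (by simp)
  obtain ⟨N, hN⟩ := hrad
  have hpow : h ^ N = Polynomial.aeval (X i : MvPolynomial (Fin n) ℂ) (H ^ N) := by
    rw [map_pow]
  have hmon : (H ^ N).Monic := hHm.pow N
  -- coefficients of a polynomial in one variable
  have hco : ∀ (p : Polynomial ℂ) (m : Fin n →₀ ℕ),
      coeff m (Polynomial.aeval (X i : MvPolynomial (Fin n) ℂ) p) =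
        if m = Finsupp.single i (m i) then p.coeff (m i) else 0 := by
    intro p m
    rw [Polynomial.aeval_eq_sum_range, coeff_sum]
    have h1 : ∀ k, coeff m (p.coeff k • (X i : MvPolynomial (Fin n) ℂ) ^ k) =
        if Finsupp.single i k = m then p.coeff k else 0 := by
      intro k
      rw [coeff_smul, coeff_X_pow, smul_eq_mul]
      split_ifs <;> simp
    rw [Finset.sum_congr rfl fun k _ => h1 k]
    split_ifs with h2
    · rw [Finset.sum_eq_single (m i)]
      · rw [if_pos h2.symm]
      · intro b _ hb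
        rw [if_neg]
        intro h3
        apply hb
        rw [← h3]; simp
      · intro h3
        rw [if_pos h2.symm]
        apply Polynomial.coeff_eq_zero_of_natDegree_lt
        simpa using h3
    · apply Finset.sum_eq_zero
      intro k _
      rw [if_neg]
      intro h3
      apply h2
      rw [← h3]; simp
  set D := (H ^ N).natDegree with hD
  have hlead : coeff (Finsupp.single i D) (h ^ N) ≠ 0 := by
    rw [hpow, hco]
    have h1 : (Finsupp.single i D : Fin n →₀ ℕ) i = D := by simp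
    rw [h1, if_pos rfl, hD, Polynomial.coeff_natDegree, hmon.leadingCoeff]
    exact one_ne_zero
  obtain ⟨g, hg, hg1, hg2, hg3⟩ := hLA n Q hQd _ hN _ hlead
  have hsupp : ∀ m ∈ g.support, m = Finsupp.single i (m i) := by
    intro m hm
    have h1 := hg3 hm
    rw [mem_support_iff, hpow, hco] at h1
    by_contra h2
    rw [if_neg h2] at h1
    exact h1 rfl
  -- the value of `g` at `x`
  let G : Polynomial ℂ := ∑ m ∈ g.support, Polynomial.monomial (m i) (coeff m g)
  have hGc : ∀ k, G.coeff k = coeff (Finsupp.single i k) g := by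
    intro k
    show (∑ m ∈ g.support, Polynomial.monomial (m i) (coeff m g)).coeff k = _
    rw [Polynomial.finsetSum_coeff]
    simp only [Polynomial.coeff_monomial]
    by_cases h1 : Finsupp.single i k ∈ g.support
    · rw [Finset.sum_eq_single (Finsupp.single i k)]
      · simp
      · intro b hb hbk
        rw [if_neg]
        intro h2
        apply hbk
        rw [hsupp b hb, h2]
      · intro h2; exact absurd h1 h2
    · rw [notMem_support_iff.mp h1]
      apply Finset.sum_eq_zero
      intro b hb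
      rw [if_neg]
      intro h2
      apply h1
      rw [← h2, ← hsupp b hb]
      exact hb
  refine alg_of_root G (fun k => by rw [hGc]; exact hg1 _) ?_ (x i) ?_
  · intro h0
    have h1 := hGc D
    rw [h0, hg2] at h1
    simp at h1
  · have h1 : eval x g = 0 := (hzero x).mpr ⟨hxV, hxF⟩ g hg
    rw [← h1]
    show (∑ m ∈ g.support, Polynomial.monomial (m i) (coeff m g)).eval (x i) = _
    rw [Polynomial.eval_finsetSum, MvPolynomial.eval_eq']
    refine Finset.sum_congr rfl fun m hm => ?_
    rw [Polynomial.eval_monomial]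
    congr 1
    symm
    refine Finset.prod_eq_single i ?_ ?_
    · intro b _ hb
      have h2 : m b = 0 := by
        rw [hsupp m hm, Finsupp.single_apply, if_neg (Ne.symm hb)]
      rw [h2, pow_zero]
    · intro h2
      exact absurd (Finset.mem_univ i) h2

end Pool.Agent.ZPT.H25
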